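import Mathlib
import Pool.Agent.Helper43.PLap4.Main

set_option autoImplicit false

namespace Pool.Agent.Results.MP_d74254_an.DegreeFour

/-- In every dimension `n`, for every `p ∈ (1,∞)`, `p ≠ 2`, there is no nonzero real homogeneous
polynomial of degree four solving the `p`-Laplace equation. -/
theorem result (n : ℕ) (p : ℝ) (hp : 1 < p) (hp2 : p ≠ 2) :
    ¬ ∃ u : MvPolynomial (Fin n) ℝ, u ≠ 0 ∧ u.IsHomogeneous 4 ∧
      ∀ x : Fin n → ℝ,
        (∑ i, (MvPolynomial.eval x (MvPolynomial.pderiv i u)) ^ 2) *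
            (∑ i, MvPolynomial.eval x (MvPolynomial.pderiv i (MvPolynomial.pderiv i u))) +
          (p - 2) * ∑ i, ∑ j,
            MvPolynomial.eval x (MvPolynomial.pderiv i u) *
              MvPolynomial.eval x (MvPolynomial.pderiv j u) *
              MvPolynomial.eval x (MvPolynomial.pderiv i (MvPolynomial.pderiv j u)) = 0 := by
  rintro ⟨u, hu0, hu, h⟩
  exact Pool.Agent.Helper43.PLap4.quartic_main p hp hp2 u hu0 hu h

end Pool.Agent.Results.MP_d74254_an.DegreeFour
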