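import Mathlib
import Pool.Agent.Helper43.PLap.Main
import Pool.Agent.PN4.Main

set_option autoImplicit false

namespace Pool.Agent.Results.MP_d74254_an.DimensionAtMostFour

/-- In dimensions three and four, for every degree `m ≥ 2` and every `p > 1`, `p ≠ 2`, there is no
nonzero real homogeneous polynomial solution of the `p`-Laplace equation; in dimension four with
`p < 4/3` finitely many `p`, depending on `m` and given by an explicit equation, are excepted. -/
theorem result (n : ℕ) (hn3 : 3 ≤ n) (hn4 : n ≤ 4) (p : ℝ) (hp : 1 < p) (hp2 : p ≠ 2)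
    (m : ℕ) (hm : 2 ≤ m)
    (hex : n = 4 → p < 4 / 3 → ∀ a c : ℕ, a + c + 2 = m →
      ((a : ℝ) - c) ^ 2 * (1 + (m - 1) * (p - 1) ^ 2) ≠ m * (1 + (m - 1) * (p - 1)) ^ 2) :
    ¬ ∃ u : MvPolynomial (Fin n) ℝ, u ≠ 0 ∧ u.IsHomogeneous m ∧
      ∀ x : Fin n → ℝ,
        (∑ i, (MvPolynomial.eval x (MvPolynomial.pderiv i u)) ^ 2) *
            (∑ i, MvPolynomial.eval x (MvPolynomial.pderiv i (MvPolynomial.pderiv i u))) +
          (p - 2) * ∑ i, ∑ j,
            MvPolynomial.eval x (MvPolynomial.pderiv i u) *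
              MvPolynomial.eval x (MvPolynomial.pderiv j u) *
              MvPolynomial.eval x (MvPolynomial.pderiv i (MvPolynomial.pderiv j u)) = 0 := by
  rintro ⟨u, hu0, hu, h⟩
  have hn : n = 3 ∨ n = 4 := by omega
  rcases hn with rfl | rfl
  · exact Pool.Agent.Helper43.PLap.dim_three p hp hp2 m hm u hu0 hu h
  · exact Pool.PN4.dim_four p hp hp2 m hm (hex rfl) u hu0 hu h

end Pool.Agent.Results.MP_d74254_an.DimensionAtMostFour
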