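import Mathlib
import Pool.Agent.PBoch.GauEx
import Pool.Agent.PBoch.QM
import Pool.Agent.PBoch.H
import Pool.Agent.PBoch.R
import Pool.Agent.PBoch.Pt
import Pool.Agent.PBoch.Main

set_option autoImplicit false

namespace Pool.Agent.Results.MP_d74254_an.LargeDegree

theorem result (n : ℕ) (hn : 3 ≤ n) (p : ℝ) (hp : 2 < p) (m : ℕ) (hm : 2 ≤ m)
    (hreg : ((n : ℝ) - 2) * ((m : ℝ) + n - 2) * (2 * m + n - 2) <
      m * (m - 1) * (7 * m + 3 * n - 6)) :
    ¬ ∃ u : MvPolynomial (Fin n) ℝ, u ≠ 0 ∧ u.IsHomogeneous m ∧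
      ∀ x : Fin n → ℝ,
        (∑ i, (MvPolynomial.eval x (MvPolynomial.pderiv i u)) ^ 2) *
            (∑ i, MvPolynomial.eval x (MvPolynomial.pderiv i (MvPolynomial.pderiv i u))) +
          (p - 2) * ∑ i, ∑ j,
            MvPolynomial.eval x (MvPolynomial.pderiv i u) *
              MvPolynomial.eval x (MvPolynomial.pderiv j u) *
              MvPolynomial.eval x (MvPolynomial.pderiv i (MvPolynomial.pderiv j u)) = 0 := by
  rintro ⟨u, hu0, hu, h⟩
  apply hu0
  have hH := Pool.Agent.PBoch.st_H Pool.Agent.PBoch.st_Mom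
  have hR := Pool.Agent.PBoch.st_R Pool.Agent.PBoch.st_Q hH
  refine Pool.Agent.PBoch.st_Main Pool.Agent.PBoch.st_Gau Pool.Agent.PBoch.st_Q
    Pool.Agent.PBoch.st_Mom hH hR Pool.Agent.PBoch.st_Pt n m (p - 2) u (by omega) hm
    (by linarith) hreg hu ?_
  apply MvPolynomial.funext
  intro x
  rw [map_zero, ← h x]
  simp only [Pool.Agent.PBoch.PL, Pool.Agent.PBoch.Gr, Pool.Agent.PBoch.Lap, map_add, map_mul,
    map_sum, MvPolynomial.eval_C, sq]

end Pool.Agent.Results.MP_d74254_an.LargeDegree
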