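import Mathlib
import Pool.Agent.PLZ.Fin

set_option autoImplicit false

namespace Pool.Agent.Results.MP_d74254_an.SingularLocus

/-- Let `u` be a real form of degree `m ≥ 3` in `n` variables which solves the `p`-Laplace
equation for some real `p ≠ 2`, and let `3 r + 5 ≤ n`. Then every linear subspace of `ℂⁿ` given by
`r` linear equations contains a nonzero isotropic vector `z` at which the gradient of `u` vanishes
and, if `p > 1`, the cube of the Hessian matrix of `u` vanishes too. -/
theorem result (n m r : ℕ) (hm : 3 ≤ m) (hr : 3 * r + 5 ≤ n) (p : ℝ) (hp : p ≠ 2)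
    (u : MvPolynomial (Fin n) ℝ) (hu : u.IsHomogeneous m)
    (h : ∀ x : Fin n → ℝ,
      (∑ i, (MvPolynomial.eval x (MvPolynomial.pderiv i u)) ^ 2) *
          (∑ i, MvPolynomial.eval x (MvPolynomial.pderiv i (MvPolynomial.pderiv i u))) +
        (p - 2) * ∑ i, ∑ j,
          MvPolynomial.eval x (MvPolynomial.pderiv i u) *
            MvPolynomial.eval x (MvPolynomial.pderiv j u) *
            MvPolynomial.eval x (MvPolynomial.pderiv i (MvPolynomial.pderiv j u)) = 0)
    (g : Fin r → Fin n → ℂ) :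
    ∃ z : Fin n → ℂ, z ≠ 0 ∧ (∀ l, ∑ i, g l i * z i = 0) ∧ ∑ i, z i ^ 2 = 0 ∧
      (∀ i, MvPolynomial.aeval z (MvPolynomial.pderiv i u) = 0) ∧
      (1 < p → (Matrix.of fun i j =>
          MvPolynomial.aeval z (MvPolynomial.pderiv i (MvPolynomial.pderiv j u)) :
        Matrix (Fin n) (Fin n) ℂ) ^ 3 = 0) :=
  Pool.Agent.PLZ.fin_main n m r hm hr p hp u hu h g

end Pool.Agent.Results.MP_d74254_an.SingularLocus
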